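import Mathlib
import Pool.Agent.X200.JensLusin

/-!
MP_1599f7_gt: under the diamond principle there is a Lusin space which is a gamma-space; it can
even be regular, first countable and submetrizable.
-/

set_option autoImplicit false

namespace Pool.Agent.Results.MP_1599f7_gt.DiamondLusinGamma

open Set Topology TopologicalSpace Filter

/-- The well-ordered set of type `ω₁`. -/
abbrev Om : Type := (Cardinal.aleph 1).ord.ToType

/-- `C` is a closed unbounded subset of `ω₁`. -/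
def IsClubSet (C : Set Om) : Prop :=
  (∀ a, ∃ b, a < b ∧ b ∈ C) ∧
    ∀ a, (∃ b, b < a) → (∀ b, b < a → ∃ c, (b < c ∧ c < a) ∧ c ∈ C) → a ∈ C

/-- Jensen's principle diamond. -/
def Diamond : Prop :=
  ∃ A : Om → Set Om, ∀ S C : Set Om, IsClubSet C → ∃ a ∈ C, ∀ b < a, (b ∈ S ↔ b ∈ A a)

/-- Lusin spaces in the sense of Kunen. -/
def Lusin (X : Type*) [TopologicalSpace X] : Prop :=
  T2Space X ∧ (∀ N : Set X, IsNowhereDense N → N.Countable) ∧
    {x : X | IsOpen ({x} : Set X)}.Countable ∧ ¬ Countable X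

/-- Open `ω`-covers. -/
def OmegaCover {X : Type*} [TopologicalSpace X] (𝒰 : Set (Set X)) : Prop :=
  (∀ U ∈ 𝒰, IsOpen U) ∧ univ ∉ 𝒰 ∧ ⋃₀ 𝒰 = univ ∧ ∀ F : Set X, F.Finite → ∃ U ∈ 𝒰, F ⊆ U

/-- Open `γ`-covers. -/
def GammaCover {X : Type*} [TopologicalSpace X] (𝒰 : Set (Set X)) : Prop :=
  (∀ U ∈ 𝒰, IsOpen U) ∧ univ ∉ 𝒰 ∧ ⋃₀ 𝒰 = univ ∧ ∀ x : X, {U ∈ 𝒰 | x ∉ U}.Finite

/-- `γ`-spaces: every open `ω`-cover has a subfamily which is a `γ`-cover. -/
def GammaSpace (X : Type*) [TopologicalSpace X] : Prop :=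
  ∀ 𝒰 : Set (Set X), OmegaCover 𝒰 → ∃ 𝒱 ⊆ 𝒰, GammaCover 𝒱

/-- Submetrizable spaces. -/
def Submetrizable (X : Type*) [t : TopologicalSpace X] : Prop :=
  ∃ m : TopologicalSpace X, @MetrizableSpace X m ∧ t ≤ m

theorem result (hD : Diamond) :
    ∃ (X : Type) (_ : TopologicalSpace X), Lusin X ∧ GammaSpace X ∧
      RegularSpace X ∧ FirstCountableTopology X ∧ Submetrizable X :=
  Pool.Agent.X200.Jens.main2 hD

end Pool.Agent.Results.MP_1599f7_gt.DiamondLusinGamma
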